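import Pool.Agent.H56.EMW.Main

set_option autoImplicit false

/-!
The Erdos-Moser theorem together with `WKL`, `COH` and any countably many closed problems does not
imply `RT²₂(1302)` over `ω`-models, not even for stable transitive colourings, and above any
countable family of sets.

Turing ideals, `EM`, `col`, `FTransitive`, `Realises` and `permPattern` are those of the library
(module `H860EM.Defs`).
-/

open Set H860EM

namespace Pool.Agent.Results.MP_507498_lc.ClosedProblems

open Classical in
/-- the characteristic function of a set of natural numbers, as a point of Cantor space -/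
noncomputable def cf (A : Set ℕ) : ℕ → Bool := fun n => decide (n ∈ A)

/-- weak König's lemma holds in `M`: every infinite binary tree in `M` has a path in `M`
(binary strings are coded by natural numbers with Mathlib's computable `Encodable.encode`) -/
def WKL (M : Set (Set ℕ)) : Prop :=
  ∀ T ∈ M, (∀ σ τ : List Bool, σ <+: τ → Encodable.encode τ ∈ T → Encodable.encode σ ∈ T) →
    {σ : List Bool | Encodable.encode σ ∈ T}.Infinite →
    ∃ A ∈ M, ∀ n : ℕ, Encodable.encode ((List.range n).map (cf A)) ∈ T

/-- the cohesiveness principle holds in `M`: for every sequence `R₀, R₁, ...` of sets coded in `M`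
there is an infinite `G ∈ M` which is, up to finitely many elements, contained in `Rᵢ` or in its
complement, for every `i` -/
def COH (M : Set (Set ℕ)) : Prop :=
  ∀ R ∈ M, ∃ G ∈ M, G.Infinite ∧
    ∀ i, {x | x ∈ G ∧ Nat.pair i x ∈ R}.Finite ∨ {x | x ∈ G ∧ Nat.pair i x ∉ R}.Finite

/-- the problem `F` is solvable in `M`: if an instance `A ∈ M` has any `F`-solution at all, then it
has one in `M` -/
def Solves (M : Set (Set ℕ)) (F : Set ((ℕ → Bool) × (ℕ → Bool))) : Prop :=
  ∀ A ∈ M, (∃ P, (cf A, P) ∈ F) → ∃ B ∈ M, (cf A, cf B) ∈ F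

/-- the colouring `c` is stable: for every `x`, the colour of `{x, y}` is the same for all but
finitely many `y` -/
def Stable (c : ℕ → ℕ → Bool) : Prop :=
  ∀ x, ∃ v : Bool, {y | c x y ≠ v}.Finite

lemma chs_eq (A : Set ℕ) : chs A = cf A := by
  funext n
  simp [chs, cf]

/-- the problems used: paths of trees, the given ones, and the given sets -/
def probs (F : ℕ → Set ((ℕ → Bool) × (ℕ → Bool))) (g : ℕ → Set ℕ) (k : ℕ) :
    Set ((ℕ → Bool) × (ℕ → Bool)) :=
  if k = 0 then H56EMW.pathRel else
    if k % 2 = 1 then F (k / 2) else {p | p.2 = chs (g (k / 2 - 1))}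

theorem result (F : ℕ → Set ((ℕ → Bool) × (ℕ → Bool))) (hF : ∀ k, IsClosed (F k))
    (S : Set (Set ℕ)) (hS : S.Countable) :
    ∃ M : Set (Set ℕ), M.Countable ∧ TuringIdeal M ∧ EM M ∧ WKL M ∧ COH M ∧
      (∀ k, Solves M (F k)) ∧ S ⊆ M ∧
      ∃ C ∈ M, FTransitive (col C) univ ∧ Stable (col C) ∧
        ∀ H ∈ M, H.Infinite → ∀ (l : ℕ) (π : Equiv.Perm (Fin l)),
          Realises (col C) H (permPattern π) := by
  obtain ⟨g, hg⟩ := (hS.insert ∅).exists_eq_range ⟨∅, mem_insert _ _⟩
  obtain ⟨M, h1, h2, h3, h4, h5, hpull, himg, C, h6, ⟨v, hv⟩, h7⟩ := H56EMW.main (probs F g) (by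
    intro k s
    unfold probs
    by_cases hk : k = 0
    · rw [if_pos hk]
      exact H56EMW.isOpen_opRel_path s
    · rw [if_neg hk]
      by_cases hk2 : k % 2 = 1
      · rw [if_pos hk2]
        exact H56EMW.isOpen_opRel (hF _) s
      · rw [if_neg hk2]
        exact H56EMW.isOpen_opRel (isClosed_eq continuous_snd continuous_const) s)
  have p0 : probs F g 0 = H56EMW.pathRel := by simp [probs]
  have p1 : ∀ k, probs F g (2 * k + 1) = F k := by
    intro k
    have e1 : (2 * k + 1) % 2 = 1 := by omega
    have e2 : (2 * k + 1) / 2 = k := by omega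
    simp [probs, e1, e2]
  have p2 : ∀ k, probs F g (2 * k + 2) = {p | p.2 = chs (g k)} := by
    intro k
    have e1 : ¬ (2 * k + 2) % 2 = 1 := by omega
    have e2 : (2 * k + 2) / 2 - 1 = k := by omega
    have e3 : ¬ (2 * k + 2 = 0) := by omega
    unfold probs
    rw [if_neg e3, if_neg e1, e2]
  obtain ⟨G, hG, hGi, hGs⟩ := h4 C h6
  choose nx hnx using H56EMW.exists_nx hGi
  have hcol : ∀ x y, col (H56EMW.pull G C) x y = decide (v (nx y) < v (nx x)) := by
    intro x y
    rw [H56EMW.col_pull (hnx x) (hnx y), hv]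
  refine ⟨M, h1, h2, h3, ?_, h4, ?_, ?_, H56EMW.pull G C, hpull G hG hGi C h6, ?_, ?_,
    fun H hH hi l π => H56EMW.realises_pull (h7 _ (himg G hG H hH) (H56EMW.img_infinite hGi hi) l π)⟩
  · intro T hT htree hinf
    have h8 := h5 0 T hT
    rw [p0] at h8
    obtain ⟨B, hB, h9⟩ := h8 (H56EMW.konig htree hinf)
    refine ⟨B, hB, fun n => ?_⟩
    rw [← chs_eq]
    exact chs_true.1 (h9 n)
  · intro k A hA hP
    have h8 := h5 (2 * k + 1) A hA
    rw [p1] at h8
    simp only [chs_eq] at h8
    exact h8 hP
  · intro A hA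
    have h8 : A ∈ range g := by
      rw [← hg]
      exact mem_insert_of_mem _ hA
    obtain ⟨k, rfl⟩ := h8
    have h9 := h5 (2 * k + 2) C h6
    rw [p2] at h9
    obtain ⟨B, hB, h10⟩ := h9 ⟨chs (g k), rfl⟩
    have h11 : B = g k := by
      ext n
      have h12 : chs B = chs (g k) := h10
      rw [← chs_true, h12, chs_true]
    rw [← h11]
    exact hB
  · intro x _ y _ z _ hxy hyz
    rw [hcol, hcol, hcol]
    intro h
    by_cases h8 : v (nx y) < v (nx x)
    · have h9 : v (nx z) < v (nx y) := by simpa [h8] using h.symm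
      simp [h8, h9.trans h8]
    · have h9 : ¬ v (nx z) < v (nx y) := by
        intro h10
        rw [decide_eq_false h8, decide_eq_true h10] at h
        exact absurd h (by simp)
      rw [decide_eq_false h8]
      refine decide_eq_false ?_
      rw [not_lt] at h8 h9 ⊢
      exact h8.trans h9
  · refine H56EMW.stable_pull hGi fun x => ?_
    rcases hGs x with h10 | h10
    · refine ⟨false, h10.subset ?_⟩
      rintro y ⟨hy, hc⟩
      refine ⟨hy, ?_⟩
      by_contra hcon
      exact hc (by simp [col, hcon])
    · refine ⟨true, h10.subset ?_⟩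
      rintro y ⟨hy, hc⟩
      refine ⟨hy, fun hcon => ?_⟩
      exact hc (by simp [col, hcon])

end Pool.Agent.Results.MP_507498_lc.ClosedProblems
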